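import Mathlib
import Pool.Agent.H97R2.BP.Defs
import Pool.Agent.H97R2.BP.Defs2

open scoped ComplexOrder InnerProductSpace ComplexConjugate TensorProduct
open Finset H759R2.Kad H710R2.DP

noncomputable section

namespace H97R2.BP

theorem bp_supp : Z_supp := by
  intro H _ _ _ M k ξ
  set W : Submodule ℂ H :=
    Submodule.span ℂ {x : H | ∃ t : H →L[ℂ] H, t ∈ M.commutant ∧ ∃ j, x = t (ξ j)} with hW
  set V : Submodule ℂ H := W.topologicalClosure with hV
  have hVc : IsClosed (V : Set H) := Submodule.isClosed_topologicalClosure W
  have : CompleteSpace V := hVc.completeSpace_coe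
  have hgen : ∀ t : H →L[ℂ] H, t ∈ M.commutant → ∀ j, t (ξ j) ∈ V := fun t ht j =>
    W.le_topologicalClosure (Submodule.subset_span ⟨t, ht, j, rfl⟩)
  -- invariance
  have hinv : ∀ y ∈ M.commutant, ∀ x ∈ V, y x ∈ V := by
    intro y hy
    have h1 : ∀ x ∈ W, y x ∈ W := by
      intro x hx
      induction hx using Submodule.span_induction with
      | mem x hx =>
        obtain ⟨t, ht, j, rfl⟩ := hx
        exact Submodule.subset_span ⟨y * t, mul_mem hy ht, j, rfl⟩
      | zero => simp
      | add a b _ _ ha hb => rw [map_add]; exact W.add_mem ha hb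
      | smul c a _ ha => rw [map_smul]; exact W.smul_mem c ha
    intro x hx
    have h2 : x ∈ closure (W : Set H) := hx
    have h3 : y x ∈ closure (W : Set H) :=
      map_mem_closure y.continuous h2 h1
    exact h3
  have hzero : ∀ y : H →L[ℂ] H, (∀ t : H →L[ℂ] H, t ∈ M.commutant → ∀ j, y (t (ξ j)) = 0) →
      ∀ x ∈ V, y x = 0 := by
    intro y hy
    have h1 : ∀ x ∈ W, y x = 0 := by
      intro x hx
      induction hx using Submodule.span_induction with
      | mem x hx =>
        obtain ⟨t, ht, j, rfl⟩ := hx
        exact hy t ht j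
      | zero => simp
      | add a b _ _ ha hb => rw [map_add, ha, hb, add_zero]
      | smul c a _ ha => rw [map_smul, ha, smul_zero]
    intro x hx
    have h2 : x ∈ closure (W : Set H) := hx
    have h3 : closure (W : Set H) ⊆ {x | y x = 0} :=
      closure_minimal h1 (isClosed_eq y.continuous continuous_const)
    exact h3 h2
  have hstar : IsStarProjection V.starProjection := isStarProjection_starProjection
  have hone : (1 : H →L[ℂ] H) ∈ M.commutant := one_mem _
  have hξ : ∀ j, ξ j ∈ V := fun j => hgen 1 hone j
  refine ⟨V.starProjection, ?_, ?_, ?_, ?_, ?_⟩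
  · rw [VonNeumannAlgebra.IsStarProjection.mem_iff hstar M]
    intro y hy
    rw [Module.End.mem_invtSubmodule]
    intro x hx
    have hx' : x ∈ V := by
      have := Submodule.range_starProjection V
      rw [this] at hx
      exact hx
    have := hinv y hy x hx'
    rw [Submodule.mem_comap, Submodule.range_starProjection]
    exact this
  · exact ⟨hstar.isSelfAdjoint.star_eq, hstar.isIdempotentElem.eq⟩
  · intro j
    exact Submodule.starProjection_eq_self_iff.2 (hξ j)
  · intro y hy
    ext x
    show y (V.starProjection x) = 0
    exact hzero y hy _ (Submodule.starProjection_apply_mem V x)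
  · intro f hf hfx
    have h0 : (f - 1) * V.starProjection = 0 := by
      ext x
      show (f - 1) (V.starProjection x) = 0
      refine hzero (f - 1) ?_ _ (Submodule.starProjection_apply_mem V x)
      intro t ht j
      have h1 : f * t = t * f := (VonNeumannAlgebra.mem_commutant_iff.1 ht) f hf
      have h2 : f (t (ξ j)) = t (f (ξ j)) := congrArg (fun g : H →L[ℂ] H => g (ξ j)) h1
      show f (t (ξ j)) - t (ξ j) = 0
      rw [h2, hfx, sub_self]
    rw [sub_mul, one_mul, sub_eq_zero] at h0
    exact h0

end H97R2.BP
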